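import Pool.Agent.Lib.MP_e55421_gt.Bodies

/-!
# Two point sources never determine planar convex bodies
-/

namespace Pool.Agent.Results.MP_e55421_gt.TwoPointsFail

open Set MeasureTheory _root_.MP_e55421_gt

/-- The Euclidean plane. -/
abbrev Plane := EuclideanSpace ℝ (Fin 2)

/-- The unit vector making the angle `θ` with the first axis. -/
noncomputable def dir (θ : ℝ) : Plane := !₂[Real.cos θ, Real.sin θ]

/-- Convex bodies: compact convex sets with nonempty interior. -/
def IsConvexBody (K : Set Plane) : Prop :=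
  IsCompact K ∧ Convex ℝ K ∧ (interior K).Nonempty

/-- The chord function: the length of `K ∩ ℓ(x, θ)`, where `ℓ(x, θ)` is the line through `x`
in the direction `dir θ`, parametrised by arc length. -/
noncomputable def chord (K : Set Plane) (x : Plane) (θ : ℝ) : ENNReal :=
  volume {t : ℝ | x + t • dir θ ∈ K}

/-- The set `P` of sources determines convex bodies. -/
def Determines (P : Set Plane) : Prop :=
  ∀ K L : Set Plane, IsConvexBody K → IsConvexBody L →
    (∀ x ∈ P, ∀ θ ∈ Ico 0 Real.pi, chord K x θ = chord L x θ) → K = L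

lemma repr_eq (z : ℂ) : Complex.orthonormalBasisOneI.repr z = !₂[z.re, z.im] := by
  ext i
  fin_cases i <;> simp [Complex.orthonormalBasisOneI_repr_apply]

/-- Similar copies of a planar set have proportional chord functions. -/
lemma chord_image (K : Set ℂ) (α β x : ℂ) (hα : α ≠ 0) (θ : ℝ) :
    chord ((fun z : ℂ => Complex.orthonormalBasisOneI.repr (α * z + β)) '' K)
      (Complex.orthonormalBasisOneI.repr (α * x + β)) θ =
      ENNReal.ofReal ‖α‖ * chordC K x (θ - α.arg) := by
  have hn : (‖α‖ : ℝ) ≠ 0 := norm_ne_zero_iff.mpr hα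
  have hdir : ∀ θ : ℝ, dir θ = Complex.orthonormalBasisOneI.repr (Complex.exp (θ * Complex.I)) := by
    intro θ
    rw [repr_eq, Complex.exp_ofReal_mul_I_re, Complex.exp_ofReal_mul_I_im]
    rfl
  have hexp : ∀ t : ℝ, α * (((‖α‖⁻¹ * t : ℝ) : ℂ) * Complex.exp (((θ - α.arg : ℝ) : ℂ) * Complex.I)) =
      t * Complex.exp (θ * Complex.I) := by
    intro t
    have h1 : α = ‖α‖ * Complex.exp (α.arg * Complex.I) := (Complex.norm_mul_exp_arg_mul_I α).symm
    have h2 : Complex.exp (θ * Complex.I) = Complex.exp (α.arg * Complex.I) *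
        Complex.exp (((θ - α.arg : ℝ) : ℂ) * Complex.I) := by
      rw [← Complex.exp_add]; congr 1; push_cast; ring
    rw [h2]
    nth_rewrite 1 [h1]
    have h3 : (‖α‖ : ℂ) ≠ 0 := by exact_mod_cast hn
    push_cast
    field_simp
  have e : {t : ℝ | Complex.orthonormalBasisOneI.repr (α * x + β) + t • dir θ ∈
      (fun z : ℂ => Complex.orthonormalBasisOneI.repr (α * z + β)) '' K} =
      (fun t : ℝ => ‖α‖⁻¹ * t) ⁻¹'
        {t : ℝ | x + t * Complex.exp (((θ - α.arg : ℝ) : ℂ) * Complex.I) ∈ K} := by
    ext t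
    simp only [mem_ofPred_eq, mem_image, mem_preimage]
    rw [hdir, ← map_smul, ← map_add]
    constructor
    · rintro ⟨z, hz, h⟩
      have h' := Complex.orthonormalBasisOneI.repr.injective h
      rw [Complex.real_smul, ← hexp t] at h'
      have : z = x + ((‖α‖⁻¹ * t : ℝ) : ℂ) * Complex.exp (((θ - α.arg : ℝ) : ℂ) * Complex.I) := by
        apply mul_left_cancel₀ hα
        linear_combination h'
      rw [← this]; exact hz
    · intro h
      refine ⟨_, h, ?_⟩
      congr 1
      rw [Complex.real_smul, ← hexp t]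
      ring
  unfold chord chordC
  rw [e, Real.volume_preimage_mul_left (inv_ne_zero hn), inv_inv, abs_of_nonneg (norm_nonneg α)]

lemma body_image {K : Set ℂ} (h : IsCompact K ∧ Convex ℝ K ∧ (interior K).Nonempty) {α β : ℂ}
    (hα : α ≠ 0) :
    IsConvexBody ((fun z : ℂ => Complex.orthonormalBasisOneI.repr (α * z + β)) '' K) := by
  obtain ⟨h1, h2, h3⟩ := h
  have hcont : Continuous (fun z : ℂ => Complex.orthonormalBasisOneI.repr (α * z + β)) := by
    fun_prop
  refine ⟨h1.image hcont, ?_, ?_⟩
  · rintro _ ⟨x, hx, rfl⟩ _ ⟨y, hy, rfl⟩ s t hs ht hst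
    refine ⟨s • x + t • y, h2 hx hy hs ht hst, ?_⟩
    simp only
    rw [← map_smul, ← map_smul, ← map_add]
    congr 1
    simp only [Complex.real_smul]
    have : (s : ℂ) + t = 1 := by exact_mod_cast hst
    linear_combination (-β) * this
  · have hopen : IsOpenMap (fun z : ℂ => Complex.orthonormalBasisOneI.repr (α * z + β)) := by
      have e1 : IsOpenMap (fun z : ℂ => α * z + β) := by
        have a1 : IsOpenMap (fun z : ℂ => α * z) := (Homeomorph.mulLeft₀ α hα).isOpenMap
        have a2 : IsOpenMap (fun z : ℂ => z + β) := (Homeomorph.addRight β).isOpenMap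
        exact a2.comp a1
      exact Complex.orthonormalBasisOneI.repr.toHomeomorph.isOpenMap.comp e1
    obtain ⟨z, hz⟩ := h3
    exact ⟨_, interior_maximal (image_mono interior_subset) (hopen _ isOpen_interior)
      (mem_image_of_mem _ hz)⟩

/-- For two distinct points there are two different convex bodies with the same chord functions
at both points. -/
lemma pair_of_ne {p q : Plane} (hpq : p ≠ q) :
    ∃ K L : Set Plane, IsConvexBody K ∧ IsConvexBody L ∧ K ≠ L ∧
      ∀ θ : ℝ, chord K p θ = chord L p θ ∧ chord K q θ = chord L q θ := by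
  obtain ⟨K, L, hK, hL, hne, hch⟩ := exists_pair
  set e := Complex.orthonormalBasisOneI.repr with he
  set p' := e.symm p with hp'
  set q' := e.symm q with hq'
  have hpq' : q' - p' ≠ 0 := by
    intro h
    apply hpq
    have : q' = p' := sub_eq_zero.mp h
    exact (e.symm.injective this).symm
  set α : ℂ := (q' - p') / 20 with hα
  have hα0 : α ≠ 0 := div_ne_zero hpq' (by norm_num)
  have hp : p = e (α * ((-20 : ℝ) : ℂ) + q') := by
    have : α * ((-20 : ℝ) : ℂ) + q' = p' := by
      rw [hα]; push_cast; ring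
    rw [this, hp', LinearIsometryEquiv.apply_symm_apply]
  have hq : q = e (α * ((0 : ℝ) : ℂ) + q') := by
    have : α * ((0 : ℝ) : ℂ) + q' = q' := by
      push_cast; ring
    rw [this, hq', LinearIsometryEquiv.apply_symm_apply]
  refine ⟨(fun z : ℂ => e (α * z + q')) '' K, (fun z : ℂ => e (α * z + q')) '' L,
    body_image hK hα0, body_image hL hα0, ?_, ?_⟩
  · intro h
    apply hne
    have hinj : Function.Injective (fun z : ℂ => e (α * z + q')) := by
      intro a b hab
      have := e.injective hab
      exact mul_left_cancel₀ hα0 (add_right_cancel this)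
    exact hinj.image_injective h
  · intro θ
    constructor
    · nth_rewrite 2 [hp]
      rw [hp]
      rw [chord_image K α q' _ hα0, chord_image L α q' _ hα0, (hch _).1]
    · rw [hq]
      rw [chord_image K α q' _ hα0, chord_image L α q' _ hα0, (hch _).2]

/-- No two points of the plane determine convex bodies. -/
theorem result : ∀ p q : Plane, ¬ Determines {p, q} := by
  intro p q hdet
  obtain ⟨q₁, hq₁⟩ : ∃ q₁ : Plane, p ≠ q₁ ∧ (q = p ∨ q = q₁) := by
    by_cases h : p = q
    · obtain ⟨r, hr⟩ := exists_ne p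
      exact ⟨r, hr.symm, Or.inl h.symm⟩
    · exact ⟨q, h, Or.inr rfl⟩
  obtain ⟨K, L, hK, hL, hne, hch⟩ := pair_of_ne hq₁.1
  apply hne
  apply hdet K L hK hL
  intro x hx θ _
  rcases hx with rfl | hx
  · exact (hch θ).1
  · rw [mem_singleton_iff] at hx
    rw [hx]
    rcases hq₁.2 with h | h
    · rw [h]; exact (hch θ).1
    · rw [h]; exact (hch θ).2

end Pool.Agent.Results.MP_e55421_gt.TwoPointsFail
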